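import Mathlib

/-!
# The numbers
-/

set_option autoImplicit false

namespace Pool.Agent.Helper70.PH

theorem term1 {k m a w : ℕ} (ha : (1 : ℝ) ≤ a) (h : (10 : ℝ) ^ 8 * (a * (a * (w + 1) * m)) ^ 2 ≤ k) :
    ((a + 1 : ℝ) * ((8 * a * (w + 1) : ℕ) * m)) ^ 2 / k ≤ 1 / 1000 := by
  have h0 : (0 : ℝ) ≤ k := Nat.cast_nonneg _
  refine div_le_of_le_mul₀ h0 (by norm_num) ?_
  have h1 : (0 : ℝ) ≤ a * (w + 1) * m := by positivity
  have h2 : (a + 1 : ℝ) * ((8 * a * (w + 1) : ℕ) * m) ≤ 16 * (a * (a * (w + 1) * m)) := by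
    push_cast
    nlinarith [mul_nonneg (by linarith : (0 : ℝ) ≤ a - 1) h1]
  have h3 : ((a + 1 : ℝ) * ((8 * a * (w + 1) : ℕ) * m)) ^ 2 ≤ (16 * (a * (a * (w + 1) * m))) ^ 2 :=
    pow_le_pow_left₀ (by positivity) h2 2
  have h4 : (0 : ℝ) ≤ (a * (a * (w + 1) * m)) ^ 2 := sq_nonneg _
  nlinarith

theorem term2 {k w : ℕ} (h : (10 : ℝ) ^ 8 * 4 ^ w ≤ k) : 2 * 2 ^ (w + 1) / Real.sqrt k ≤ 1 / 1000 := by
  have h1 : (10 : ℝ) ^ 4 * 2 ^ w ≤ Real.sqrt k := by
    apply Real.le_sqrt_of_sq_le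
    refine le_trans (le_of_eq ?_) h
    rw [mul_pow, ← pow_mul, ← pow_mul, mul_comm w 2, pow_mul 2 2 w]
    norm_num
  have h2 : (0 : ℝ) < 10 ^ 4 * 2 ^ w := by positivity
  rw [div_le_iff₀ (lt_of_lt_of_le h2 h1), pow_succ]
  nlinarith

theorem key {m w : ℕ} {ε : ℝ} (hε : 0 < ε) (hε1 : ε ≤ 1)
    (h : (10 : ℝ) ^ 8 * Real.log (10 ^ 8 * (w + 1) / ε) / ε ≤ m) :
    57600 * Real.exp 1 * (w + 1) * (m : ℝ) ^ 2 ≤ (1 + ε / 2) ^ m := by
  have hw : (1 : ℝ) ≤ w + 1 := by linarith [(Nat.cast_nonneg w : (0 : ℝ) ≤ w)]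
  have hl1 : Real.log (10 ^ 8 * (w + 1) / ε) = Real.log (10 ^ 8) + Real.log (w + 1) + -Real.log ε := by
    rw [Real.log_div (by positivity) hε.ne', Real.log_mul (by norm_num) (by positivity)]
    ring
  have hC : (1 : ℝ) ≤ Real.log (10 ^ 8) := by
    rw [Real.le_log_iff_exp_le (by norm_num)]
    have := Real.exp_one_lt_d9
    linarith
  have hW : 0 ≤ Real.log ((w : ℝ) + 1) := Real.log_nonneg hw
  have hE : 0 ≤ -Real.log ε := by
    have := Real.log_nonpos hε.le hε1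
    linarith
  have h57 : Real.log 57600 ≤ Real.log (10 ^ 8) := Real.log_le_log (by norm_num) (by norm_num)
  have hy : (10 : ℝ) ^ 8 * Real.log (10 ^ 8 * (w + 1) / ε) ≤ m * ε := (div_le_iff₀ hε).mp h
  have hy8 : (10 : ℝ) ^ 8 ≤ m * ε := by
    refine le_trans ?_ hy
    rw [hl1]
    nlinarith
  have hm0 : (0 : ℝ) < m := by
    by_contra hm
    have : (m : ℝ) ≤ 0 := not_lt.mp hm
    nlinarith
  have hy0 : 0 < m * ε := by positivity
  have h100 : Real.log (m * ε) ≤ m * ε / 100 + 4 := by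
    have h1 : Real.log (m * ε / 100) ≤ m * ε / 100 - 1 := Real.log_le_sub_one_of_pos (by positivity)
    have h2 : Real.log (m * ε / 100) = Real.log (m * ε) - Real.log 100 := Real.log_div hy0.ne' (by norm_num)
    have h3 : Real.log 100 ≤ 5 := by
      rw [Real.log_le_iff_le_exp (by norm_num)]
      have h4 : (2.7 : ℝ) ≤ Real.exp 1 := by linarith [Real.exp_one_gt_d9]
      calc (100 : ℝ) ≤ 2.7 ^ 5 := by norm_num
        _ ≤ Real.exp 1 ^ 5 := pow_le_pow_left₀ (by norm_num) h4 5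
        _ = Real.exp 5 := by rw [← Real.exp_nat_mul]; norm_num
    linarith
  have hexp : Real.exp (m * ε / 3) ≤ (1 + ε / 2) ^ m := by
    have h1 : Real.exp (ε / 3) ≤ 1 + ε / 2 := by
      have h2 := Real.abs_exp_sub_one_sub_id_le (x := ε / 3) (by rw [abs_of_pos (by positivity)]; linarith)
      have h3 := (abs_le.mp h2).2
      nlinarith
    calc Real.exp (m * ε / 3) = Real.exp (ε / 3) ^ m := by
          rw [← Real.exp_nat_mul]
          congr 1
          ring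
      _ ≤ (1 + ε / 2) ^ m := pow_le_pow_left₀ (Real.exp_pos _).le h1 m
  refine le_trans ?_ hexp
  have hpos : (0 : ℝ) < 57600 * Real.exp 1 * (w + 1) * (m : ℝ) ^ 2 := by positivity
  rw [← Real.log_le_iff_le_exp hpos]
  have hlog : Real.log (57600 * Real.exp 1 * (w + 1) * (m : ℝ) ^ 2) =
      Real.log 57600 + 1 + Real.log (w + 1) + 2 * Real.log m := by
    rw [Real.log_mul (by positivity) (by positivity), Real.log_mul (by positivity) (by positivity),
      Real.log_mul (by norm_num) (by positivity), Real.log_exp, Real.log_pow]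
    norm_num
  have hlm : Real.log m = Real.log (m * ε) + -Real.log ε := by
    rw [Real.log_mul hm0.ne' hε.ne']
    ring
  rw [hlog, hlm]
  rw [hl1] at hy
  nlinarith

theorem term3 {m a w : ℕ} {ε : ℝ} (hε : 0 < ε) (ha : (10 : ℝ) ^ 8 ≤ a)
    (h : 57600 * Real.exp 1 * (w + 1) * (m : ℝ) ^ 2 ≤ (1 + ε / 2) ^ m) :
    a * (8 * a * (w + 1)).choose a * ((15 * m : ℝ) ^ a) ^ 2 * ((2 : ℝ) ^ a) ^ 3 * (2 / (1 + ε / 2) ^ (a * m)) ≤
      1 / 1000 := by
  have ha0 : (0 : ℝ) < a := lt_of_lt_of_le (by norm_num) ha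
  have hw : (0 : ℝ) < w + 1 := by positivity
  have hb : (0 : ℝ) < (1 + ε / 2) ^ m := by positivity
  have h1 : ((8 * a * (w + 1)).choose a : ℝ) ≤ (8 * (w + 1)) ^ a * Real.exp 1 ^ a := by
    refine (Nat.choose_le_pow_div (α := ℝ) a (8 * a * (w + 1))).trans ?_
    have h2 : (a : ℝ) ^ a / a.factorial ≤ Real.exp a := by
      have := Real.sum_le_exp_of_nonneg ha0.le (a + 1)
      refine le_trans ?_ this
      exact Finset.single_le_sum (f := fun i => (a : ℝ) ^ i / (i.factorial : ℝ)) (fun i _ => by positivity)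
        (Finset.self_mem_range_succ a)
    rw [← Real.exp_nat_mul, mul_one]
    push_cast
    calc (8 * (a : ℝ) * (w + 1)) ^ a / a.factorial = (8 * (w + 1)) ^ a * ((a : ℝ) ^ a / a.factorial) := by
          rw [show (8 * (a : ℝ) * (w + 1)) = (8 * (w + 1)) * a by ring, mul_pow]
          ring
      _ ≤ (8 * (w + 1)) ^ a * Real.exp a := mul_le_mul_of_nonneg_left h2 (by positivity)
  have h2 : a * (8 * a * (w + 1)).choose a * ((15 * m : ℝ) ^ a) ^ 2 * ((2 : ℝ) ^ a) ^ 3 *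
      (2 / (1 + ε / 2) ^ (a * m)) ≤ 2 * a * (1 / 4) ^ a := by
    calc a * (8 * a * (w + 1)).choose a * ((15 * m : ℝ) ^ a) ^ 2 * ((2 : ℝ) ^ a) ^ 3 * (2 / (1 + ε / 2) ^ (a * m))
        ≤ a * ((8 * (w + 1)) ^ a * Real.exp 1 ^ a) * ((15 * m : ℝ) ^ a) ^ 2 * ((2 : ℝ) ^ a) ^ 3 *
          (2 / (1 + ε / 2) ^ (a * m)) := by gcongr
      _ = 2 * a * ((14400 * Real.exp 1 * (w + 1) * (m : ℝ) ^ 2) / (1 + ε / 2) ^ m) ^ a := by
          have e1 : (14400 * Real.exp 1 * (w + 1) * (m : ℝ) ^ 2) ^ a =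
              (8 * (w + 1)) ^ a * Real.exp 1 ^ a * ((15 * m : ℝ) ^ a) ^ 2 * ((2 : ℝ) ^ a) ^ 3 := by
            rw [← pow_mul, ← pow_mul, mul_comm a 2, mul_comm a 3, pow_mul, pow_mul, ← mul_pow, ← mul_pow, ← mul_pow]
            congr 1
            ring
          rw [div_pow, e1, ← pow_mul (1 + ε / 2), mul_comm m a]
          ring
      _ ≤ 2 * a * (1 / 4) ^ a := by
          apply mul_le_mul_of_nonneg_left _ (by positivity)
          apply pow_le_pow_left₀ (by positivity)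
          rw [div_le_iff₀ hb]
          linarith
  refine h2.trans ?_
  have h3 : (a : ℝ) + 1 ≤ 2 ^ a := by
    have := Nat.lt_two_pow_self (n := a)
    exact_mod_cast this
  have h4 : ((a : ℝ) + 1) * (a + 1) ≤ 4 ^ a := by
    calc ((a : ℝ) + 1) * (a + 1) ≤ 2 ^ a * 2 ^ a := by gcongr
      _ = 4 ^ a := by rw [← mul_pow]; norm_num
  rw [one_div, inv_pow, ← div_eq_mul_inv, div_le_iff₀ (by positivity)]
  nlinarith

theorem term4 {k m a w : ℕ} (ha : (10 : ℝ) ^ 8 ≤ a) (hm : (10 : ℝ) ^ 8 * ((w + 1) * 2 ^ w) ≤ m)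
    (h : (10 : ℝ) ^ 8 * (a * (a * (w + 1) * m)) ^ 2 ≤ k) :
    2 * ((2 : ℝ) ^ a * (15 * m + 1) ^ (8 * a * (w + 1))) ^ (w + 1) *
      (k : ℝ) ^ (-((8 * a * (w + 1) - (w + 1) * a : ℕ) * m : ℝ) / 2 ^ (w + 2)) ≤ 1 / 1000 := by
  have ha0 : (0 : ℝ) < a := lt_of_lt_of_le (by norm_num) ha
  have hW : (1 : ℝ) ≤ w + 1 := by linarith [(Nat.cast_nonneg w : (0 : ℝ) ≤ w)]
  have h2w : (1 : ℝ) ≤ 2 ^ w := one_le_pow₀ (by norm_num)
  have hm1 : (1 : ℝ) ≤ m := by
    refine le_trans ?_ hm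
    nlinarith [mul_le_mul hW h2w (by norm_num) (by linarith)]
  set L : ℝ := Real.log (16 * m) with hL
  have hL1 : 1 ≤ L := by
    rw [hL, Real.le_log_iff_exp_le (by positivity)]
    have := Real.exp_one_lt_d9
    linarith
  have h15 : Real.log (15 * m + 1) ≤ L := Real.log_le_log (by positivity) (by linarith)
  have hk0 : (0 : ℝ) < k := lt_of_lt_of_le (by positivity) h
  have hkL : 2 * L ≤ Real.log k := by
    have h1 : (16 * (m : ℝ)) ^ 2 ≤ k := by
      refine le_trans ?_ h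
      have h2 : (m : ℝ) ≤ a * (a * (w + 1) * m) := by
        have h3 : (1 : ℝ) ≤ a := by linarith
        have h4 : (1 : ℝ) ≤ a * (w + 1) := by nlinarith
        have h5 : (m : ℝ) ≤ a * (w + 1) * m := le_mul_of_one_le_left (by positivity) h4
        exact h5.trans (le_mul_of_one_le_left (by positivity) h3)
      have h6 : (m : ℝ) ^ 2 ≤ (a * (a * (w + 1) * m)) ^ 2 := pow_le_pow_left₀ (by positivity) h2 2
      nlinarith
    calc 2 * L = Real.log ((16 * (m : ℝ)) ^ 2) := by rw [Real.log_pow, hL]; norm_num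
      _ ≤ Real.log k := Real.log_le_log (by positivity) h1
  have hnat : ((8 * a * (w + 1) - (w + 1) * a : ℕ) : ℝ) = 7 * a * (w + 1) := by
    have : 8 * a * (w + 1) - (w + 1) * a = 7 * a * (w + 1) := by
      have : (w + 1) * a = a * (w + 1) := mul_comm _ _
      rw [this, mul_assoc, mul_assoc]
      omega
    rw [this]
    push_cast
    ring
  rw [hnat]
  have hpos : (0 : ℝ) < 2 * ((2 : ℝ) ^ a * (15 * m + 1) ^ (8 * a * (w + 1))) ^ (w + 1) *
      (k : ℝ) ^ (-(7 * a * (w + 1) * m : ℝ) / 2 ^ (w + 2)) := by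
    have := Real.rpow_pos_of_pos hk0 (-(7 * a * (w + 1) * m : ℝ) / 2 ^ (w + 2))
    positivity
  have hlog : Real.log (2 * ((2 : ℝ) ^ a * (15 * m + 1) ^ (8 * a * (w + 1))) ^ (w + 1) *
      (k : ℝ) ^ (-(7 * a * (w + 1) * m : ℝ) / 2 ^ (w + 2))) ≤ -7 := by
    rw [Real.log_mul (by positivity) (Real.rpow_pos_of_pos hk0 _).ne', Real.log_mul (by norm_num) (by positivity),
      Real.log_pow, Real.log_mul (by positivity) (by positivity), Real.log_pow, Real.log_pow, Real.log_rpow hk0]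
    have hlog2 : Real.log 2 ≤ 1 := by linarith [Real.log_two_lt_d9]
    have hlog20 : 0 ≤ Real.log 2 := Real.log_nonneg (by norm_num)
    -- the last summand
    have h5 : (10 : ℝ) ^ 8 * (a * (w + 1) ^ 2) * L ≤ 7 * a * (w + 1) * m / 2 ^ (w + 2) * Real.log k := by
      have h6 : (10 : ℝ) ^ 8 * ((w + 1) ^ 2 * a) * 7 / 4 ≤ 7 * a * (w + 1) * m / 2 ^ (w + 2) := by
        rw [le_div_iff₀ (by positivity), pow_add]
        have h7 : (0 : ℝ) ≤ a * (w + 1) := by positivity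
        nlinarith [mul_le_mul_of_nonneg_left hm h7]
      have h8 : (0 : ℝ) ≤ (w + 1) ^ 2 * a := by positivity
      calc (10 : ℝ) ^ 8 * (a * (w + 1) ^ 2) * L ≤ ((10 : ℝ) ^ 8 * ((w + 1) ^ 2 * a) * 7 / 4) * (2 * L) := by
            nlinarith [mul_nonneg h8 (by linarith : 0 ≤ L)]
        _ ≤ 7 * a * (w + 1) * m / 2 ^ (w + 2) * Real.log k :=
            mul_le_mul h6 hkL (by linarith) (by positivity)
    have h9 : (a : ℝ) * Real.log 2 + (8 * a * (w + 1) : ℕ) * Real.log (15 * m + 1) ≤ 9 * (a * (w + 1)) * L := by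
      push_cast
      have h10 : (0 : ℝ) ≤ 8 * a * (w + 1) := by positivity
      have h11 := mul_le_mul_of_nonneg_left h15 h10
      have h12 : (a : ℝ) * Real.log 2 ≤ a * (w + 1) * L := by
        have : Real.log 2 ≤ (w + 1) * L := by nlinarith
        nlinarith
      nlinarith
    have h13 : ((w + 1 : ℕ) : ℝ) * (a * Real.log 2 + (8 * a * (w + 1) : ℕ) * Real.log (15 * m + 1)) ≤
        9 * (a * (w + 1) ^ 2) * L := by
      push_cast
      push_cast at h9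
      have := mul_le_mul_of_nonneg_left h9 (by positivity : (0 : ℝ) ≤ w + 1)
      nlinarith
    have h14 : (10 : ℝ) ^ 8 ≤ a * (w + 1) ^ 2 * L := by
      have h15 : (1 : ℝ) ≤ (w + 1) ^ 2 * L := by
        have := one_le_pow₀ hW (n := 2)
        nlinarith
      nlinarith
    have h16 : -(7 * a * (w + 1) * m : ℝ) / 2 ^ (w + 2) * Real.log k =
        -(7 * a * (w + 1) * m / 2 ^ (w + 2) * Real.log k) := by ring
    rw [h16]
    have h17 : (10 : ℝ) ^ 8 * (a * (w + 1) ^ 2 * L) ≤ 7 * a * (w + 1) * m / 2 ^ (w + 2) * Real.log k := by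
      refine le_trans (le_of_eq ?_) h5
      ring
    have h18 : ((w + 1 : ℕ) : ℝ) * (a * Real.log 2 + (8 * a * (w + 1) : ℕ) * Real.log (15 * m + 1)) ≤
        9 * (a * (w + 1) ^ 2 * L) := by
      refine le_trans h13 (le_of_eq ?_)
      ring
    generalize (a : ℝ) * (w + 1) ^ 2 * L = Z at h14 h17 h18
    generalize ((w + 1 : ℕ) : ℝ) * (a * Real.log 2 + (8 * a * (w + 1) : ℕ) * Real.log (15 * m + 1)) = Z1 at h18 ⊢
    generalize 7 * (a : ℝ) * (w + 1) * m / 2 ^ (w + 2) * Real.log k = Z2 at h17 ⊢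
    linarith
  calc 2 * ((2 : ℝ) ^ a * (15 * m + 1) ^ (8 * a * (w + 1))) ^ (w + 1) *
      (k : ℝ) ^ (-(7 * a * (w + 1) * m : ℝ) / 2 ^ (w + 2)) ≤ Real.exp (-7) :=
        (Real.log_le_iff_le_exp hpos).mp hlog
    _ ≤ 1 / 1000 := by
        rw [Real.exp_neg, inv_eq_one_div]
        apply one_div_le_one_div_of_le (by norm_num)
        have h4 : (2.7 : ℝ) ≤ Real.exp 1 := by linarith [Real.exp_one_gt_d9]
        calc (1000 : ℝ) ≤ 2.7 ^ 7 := by norm_num
          _ ≤ Real.exp 1 ^ 7 := pow_le_pow_left₀ (by norm_num) h4 7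
          _ = Real.exp 7 := by rw [← Real.exp_nat_mul]; norm_num

/-- P10: the numbers; `n = 8 a W` nodes, `W` windows, at most `2 ^ a` states, `R = a`. -/
theorem numbers : ∃ C : ℝ, 1 ≤ C ∧ ∀ (k m a w : ℕ) (ε : ℝ), 0 < ε → ε ≤ 1 →
    C * ((w + 1) * 2 ^ w) ≤ m → C * Real.log (C * (w + 1) / ε) / ε ≤ m → C ≤ a →
    C * (a * (a * (w + 1) * m)) ^ 2 ≤ k → C * 4 ^ w ≤ k →
      ((a + 1 : ℝ) * ((8 * a * (w + 1) : ℕ) * m)) ^ 2 / k + 2 * 2 ^ (w + 1) / Real.sqrt k +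
        a * (8 * a * (w + 1)).choose a * ((15 * m : ℝ) ^ a) ^ 2 * ((2 : ℝ) ^ a) ^ 3 * (2 / (1 + ε / 2) ^ (a * m)) +
        2 * ((2 : ℝ) ^ a * (15 * m + 1) ^ (8 * a * (w + 1))) ^ (w + 1) *
          (k : ℝ) ^ (-((8 * a * (w + 1) - (w + 1) * a : ℕ) * m : ℝ) / 2 ^ (w + 2)) ≤ 1 / 100 := by
  refine ⟨10 ^ 8, by norm_num, fun k m a w ε hε hε1 h1 h2 h3 h4 h5 => ?_⟩
  have t1 := term1 (by linarith) h4
  have t2 := term2 h5
  have t3 := term3 hε h3 (key hε hε1 h2)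
  have t4 := term4 h3 h1 h4
  linarith

end Pool.Agent.Helper70.PH
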