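import Mathlib

/-!
# The inequality of Babai, Nisan and Szegedy for products of functions which do not depend on one of the variables
-/

set_option autoImplicit false

namespace Pool.Agent.Helper70.PH

open Finset

variable {Y : Type} [Fintype Y]

/-- The mean. -/
noncomputable def mean {X : Type} [Fintype X] (f : X → ℂ) : ℂ := (Fintype.card X : ℂ)⁻¹ * ∑ x, f x

/-- The mean over all pairs of points of the product over the cube between them, for `w + 1` variables: for one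
variable this is the square of the absolute value of the mean. -/
noncomputable def cube : (w : ℕ) → ((Fin (w + 1) → Y) → ℂ) → ℝ
  | 0, F => ‖mean fun a : Y => F fun _ => a‖ ^ 2
  | w + 1, F => (Fintype.card Y : ℝ)⁻¹ ^ 2 *
      ∑ a : Y, ∑ b : Y, cube w fun y => F (Fin.cons a y) * (starRingEnd ℂ) (F (Fin.cons b y))

theorem cube_nonneg (w : ℕ) (F : (Fin (w + 1) → Y) → ℂ) : 0 ≤ cube w F := by
  induction w with
  | zero => exact sq_nonneg _
  | succ w ih => exact mul_nonneg (by positivity) (sum_nonneg fun a _ => sum_nonneg fun b _ => ih _)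

theorem sum_cons {M : Type} [AddCommMonoid M] (w : ℕ) (f : (Fin (w + 1) → Y) → M) :
    ∑ y, f y = ∑ y : Fin w → Y, ∑ a : Y, f (Fin.cons a y) := by
  rw [← (Fin.consEquiv fun _ => Y).sum_comp f, Fintype.sum_prod_type, sum_comm]
  rfl

theorem card_fun (w : ℕ) : (Fintype.card (Fin (w + 1) → Y) : ℂ) = Fintype.card Y * Fintype.card (Fin w → Y) := by
  rw [Fintype.card_fun, Fintype.card_fun, Fintype.card_fin, Fintype.card_fin, pow_succ]
  push_cast
  ring

theorem mean_cons (w : ℕ) (f : (Fin (w + 1) → Y) → ℂ) :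
    mean f = mean fun y : Fin w → Y => mean fun a : Y => f (Fin.cons a y) := by
  unfold mean
  rw [sum_cons, card_fun, mul_inv, ← mul_sum]
  ring

/-- Cauchy - Schwarz. -/
theorem norm_mean_sq_le {X : Type} [Fintype X] (f : X → ℂ) (c : X → ℝ) (h0 : ∀ x, 0 ≤ c x) (h1 : ∀ x, c x ≤ 1) :
    ‖mean fun x => (c x : ℂ) * f x‖ ^ 2 ≤ (Fintype.card X : ℝ)⁻¹ * ∑ x, ‖f x‖ ^ 2 := by
  rcases isEmpty_or_nonempty X with h | h
  · simp [mean]
  have hk : (0 : ℝ) < Fintype.card X := by exact_mod_cast Fintype.card_pos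
  have h2 : ‖∑ x, (c x : ℂ) * f x‖ ≤ ∑ x, ‖f x‖ := by
    refine (norm_sum_le _ _).trans (sum_le_sum fun x _ => ?_)
    rw [norm_mul, Complex.norm_real, Real.norm_of_nonneg (h0 x)]
    exact mul_le_of_le_one_left (norm_nonneg _) (h1 x)
  have h3 : (∑ x, ‖f x‖) ^ 2 ≤ Fintype.card X * ∑ x, ‖f x‖ ^ 2 := by
    have := sq_sum_le_card_mul_sum_sq (s := (univ : Finset X)) (f := fun x => ‖f x‖)
    rwa [card_univ] at this
  unfold mean
  rw [norm_mul, norm_inv, Complex.norm_natCast, mul_pow]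
  calc (Fintype.card X : ℝ)⁻¹ ^ 2 * ‖∑ x, (c x : ℂ) * f x‖ ^ 2
      ≤ (Fintype.card X : ℝ)⁻¹ ^ 2 * (Fintype.card X * ∑ x, ‖f x‖ ^ 2) := by
        refine mul_le_mul_of_nonneg_left (le_trans ?_ h3) (by positivity)
        exact pow_le_pow_left₀ (norm_nonneg _) h2 2
    _ = (Fintype.card X : ℝ)⁻¹ * ∑ x, ‖f x‖ ^ 2 := by
        field_simp

theorem norm_mean_sq (f : Y → ℂ) :
    ((‖mean f‖ ^ 2 : ℝ) : ℂ) = (Fintype.card Y : ℂ)⁻¹ ^ 2 * ∑ a, ∑ b, f a * (starRingEnd ℂ) (f b) := by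
  rw [← Complex.normSq_eq_norm_sq, Complex.normSq_eq_conj_mul_self, mul_comm]
  unfold mean
  rw [map_mul, map_sum, map_inv₀, Complex.conj_natCast, ← sum_mul_sum]
  ring

theorem inner_le_pow {X : Type} [Fintype X] [Nonempty X] (f : X → ℝ) (hf : ∀ x, 0 ≤ f x) (n : ℕ) :
    ((Fintype.card X : ℝ)⁻¹ * ∑ x, f x) ^ n ≤ (Fintype.card X : ℝ)⁻¹ * ∑ x, f x ^ n := by
  have hk : (0 : ℝ) < Fintype.card X := by exact_mod_cast Fintype.card_pos
  have h := Real.pow_arith_mean_le_arith_mean_pow (univ : Finset X) (fun _ => (Fintype.card X : ℝ)⁻¹) f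
    (fun _ _ => by positivity) (by rw [sum_const, card_univ, nsmul_eq_mul]; field_simp) (fun x _ => hf x) n
  rwa [← mul_sum, ← mul_sum] at h

/-- The inequality of Babai, Nisan and Szegedy. -/
theorem bns (w : ℕ) (F : (Fin (w + 1) → Y) → ℂ) (C : Fin (w + 1) → (Fin (w + 1) → Y) → ℝ)
    (h0 : ∀ l y, 0 ≤ C l y) (h1 : ∀ l y, C l y ≤ 1)
    (hind : ∀ l y y', (∀ i, i ≠ l → y i = y' i) → C l y = C l y') :
    ‖mean fun y => ((∏ l, C l y : ℝ) : ℂ) * F y‖ ^ (2 ^ (w + 1)) ≤ cube w F := by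
  induction w with
  | zero =>
    rcases isEmpty_or_nonempty Y with hY | ⟨⟨a0⟩⟩
    · simp [mean, cube]
    have h2 : (mean fun y : Fin 1 → Y => ((∏ l, C l y : ℝ) : ℂ) * F y) =
        (C 0 (fun _ => a0) : ℂ) * mean fun a : Y => F fun _ => a := by
      rw [mean_cons]
      unfold mean
      rw [Fintype.card_fun, Fintype.card_fin, pow_zero, Nat.cast_one, inv_one, one_mul]
      rw [Fintype.sum_unique, mul_left_comm]
      congr 1
      rw [mul_sum]
      refine sum_congr rfl fun a _ => ?_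
      show ((∏ l, C l (Fin.cons a default) : ℝ) : ℂ) * F (Fin.cons a default) = _
      rw [Fin.prod_univ_one]
      have h3 : (Fin.cons a default : Fin 1 → Y) = fun _ => a := by
        funext i
        rw [Fin.fin_one_eq_zero i, Fin.cons_zero]
      rw [h3, hind 0 (fun _ => a) (fun _ => a0) (fun i hi => absurd (Fin.fin_one_eq_zero i) hi)]
    show ‖_‖ ^ 2 ≤ ‖mean fun a : Y => F fun _ => a‖ ^ 2
    rw [h2, norm_mul, Complex.norm_real, Real.norm_of_nonneg (h0 _ _)]
    exact pow_le_pow_left₀ (mul_nonneg (h0 _ _) (norm_nonneg _))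
      (mul_le_of_le_one_left (norm_nonneg _) (h1 _ _)) 2
  | succ w ih =>
    rcases isEmpty_or_nonempty Y with hY | ⟨⟨a0⟩⟩
    · have : mean (fun y : Fin (w + 1 + 1) → Y => ((∏ l, C l y : ℝ) : ℂ) * F y) = 0 := by
        unfold mean
        rw [univ_eq_empty, sum_empty, mul_zero]
      rw [this, norm_zero, zero_pow (by positivity)]
      exact cube_nonneg _ _
    have : Nonempty Y := ⟨a0⟩
    -- the part of the product which depends on the first variable
    set G : Y → (Fin (w + 1) → Y) → ℂ := fun a y => ((∏ l : Fin (w + 1), C l.succ (Fin.cons a y) : ℝ) : ℂ) *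
      F (Fin.cons a y) with hG
    have h2 : (mean fun y => ((∏ l, C l y : ℝ) : ℂ) * F y) =
        mean fun y : Fin (w + 1) → Y => (C 0 (Fin.cons a0 y) : ℂ) * mean fun a => G a y := by
      rw [mean_cons]
      congr 1
      funext y
      unfold mean
      rw [mul_left_comm]
      congr 1
      rw [mul_sum]
      refine sum_congr rfl fun a _ => ?_
      show ((∏ l, C l (Fin.cons a y) : ℝ) : ℂ) * F (Fin.cons a y) = _
      rw [Fin.prod_univ_succ, hG]
      dsimp only
      rw [hind 0 (Fin.cons a y) (Fin.cons a0 y) (fun i hi => by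
        obtain ⟨j, rfl⟩ := Fin.exists_succ_eq.mpr hi
        rw [Fin.cons_succ, Fin.cons_succ])]
      push_cast
      ring
    -- the functions of the pairs
    set S : Y → Y → ℂ := fun a b => mean fun y : Fin (w + 1) → Y =>
      ((∏ l : Fin (w + 1), (C l.succ (Fin.cons a y) * C l.succ (Fin.cons b y)) : ℝ) : ℂ) *
        (F (Fin.cons a y) * (starRingEnd ℂ) (F (Fin.cons b y))) with hS
    have h3 : ‖mean fun y => ((∏ l, C l y : ℝ) : ℂ) * F y‖ ^ 2 ≤
        (Fintype.card Y : ℝ)⁻¹ ^ 2 * ∑ a, ∑ b, ‖S a b‖ := by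
      rw [h2]
      refine (norm_mean_sq_le _ (fun y => C 0 (Fin.cons a0 y)) (fun y => h0 _ _) (fun y => h1 _ _)).trans ?_
      have h4 : (((Fintype.card (Fin (w + 1) → Y) : ℝ)⁻¹ * ∑ y : Fin (w + 1) → Y, ‖mean fun a => G a y‖ ^ 2 : ℝ) : ℂ) =
          (Fintype.card Y : ℂ)⁻¹ ^ 2 * ∑ a, ∑ b, S a b := by
        rw [Complex.ofReal_mul, Complex.ofReal_inv, Complex.ofReal_natCast, Complex.ofReal_sum]
        rw [sum_congr rfl (fun y _ => norm_mean_sq (fun a => G a y)), ← mul_sum, hS]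
        unfold mean
        rw [mul_left_comm]
        congr 1
        rw [sum_comm]
        rw [mul_sum]
        refine sum_congr rfl fun a _ => ?_
        rw [sum_comm, mul_sum]
        refine sum_congr rfl fun b _ => ?_
        congr 1
        refine sum_congr rfl fun y _ => ?_
        rw [hG]
        dsimp only
        rw [map_mul, Complex.conj_ofReal, prod_mul_distrib]
        push_cast
        ring
      have h5 : (Fintype.card (Fin (w + 1) → Y) : ℝ)⁻¹ * ∑ y : Fin (w + 1) → Y, ‖mean fun a => G a y‖ ^ 2 =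
          ‖(Fintype.card Y : ℂ)⁻¹ ^ 2 * ∑ a, ∑ b, S a b‖ := by
        rw [← h4, Complex.norm_real, Real.norm_of_nonneg]
        exact mul_nonneg (by positivity) (sum_nonneg fun _ _ => sq_nonneg _)
      rw [h5, norm_mul, norm_pow, norm_inv, Complex.norm_natCast]
      refine mul_le_mul_of_nonneg_left ?_ (by positivity)
      refine (norm_sum_le _ _).trans (sum_le_sum fun a _ => norm_sum_le _ _)
    have h4 : ∀ a b, ‖S a b‖ ^ (2 ^ (w + 1)) ≤
        cube w fun y => F (Fin.cons a y) * (starRingEnd ℂ) (F (Fin.cons b y)) := by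
      intro a b
      refine ih _ (fun l y => C l.succ (Fin.cons a y) * C l.succ (Fin.cons b y))
        (fun l y => mul_nonneg (h0 _ _) (h0 _ _)) (fun l y => mul_le_one₀ (h1 _ _) (h0 _ _) (h1 _ _)) ?_
      intro l y y' hy
      have h5 : ∀ (a : Y) (i : Fin (w + 1 + 1)), i ≠ l.succ → (Fin.cons a y : Fin (w + 1 + 1) → Y) i =
          (Fin.cons a y' : Fin (w + 1 + 1) → Y) i := by
        intro a i hi
        refine Fin.cases (fun _ => rfl) (fun j hj => ?_) i hi
        rw [Fin.cons_succ, Fin.cons_succ]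
        exact hy j fun h => hj (by rw [h])
      rw [hind l.succ _ _ (h5 a), hind l.succ _ _ (h5 b)]
    -- the power mean inequality
    have h5 : ((Fintype.card Y : ℝ)⁻¹ ^ 2 * ∑ a, ∑ b, ‖S a b‖) ^ (2 ^ (w + 1)) ≤
        (Fintype.card Y : ℝ)⁻¹ ^ 2 * ∑ a, ∑ b, ‖S a b‖ ^ (2 ^ (w + 1)) := by
      have h6 := inner_le_pow (fun p : Y × Y => ‖S p.1 p.2‖) (fun _ => norm_nonneg _) (2 ^ (w + 1))
      rw [Fintype.card_prod, Fintype.sum_prod_type, Fintype.sum_prod_type] at h6
      push_cast at h6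
      rw [inv_pow, pow_two]
      exact h6
    calc ‖mean fun y => ((∏ l, C l y : ℝ) : ℂ) * F y‖ ^ (2 ^ (w + 1 + 1))
        = (‖mean fun y => ((∏ l, C l y : ℝ) : ℂ) * F y‖ ^ 2) ^ (2 ^ (w + 1)) := by
          rw [← pow_mul, pow_succ' 2 (w + 1)]
      _ ≤ ((Fintype.card Y : ℝ)⁻¹ ^ 2 * ∑ a, ∑ b, ‖S a b‖) ^ (2 ^ (w + 1)) :=
          pow_le_pow_left₀ (sq_nonneg _) h3 _
      _ ≤ (Fintype.card Y : ℝ)⁻¹ ^ 2 * ∑ a, ∑ b, ‖S a b‖ ^ (2 ^ (w + 1)) := h5
      _ ≤ cube (w + 1) F := by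
          show _ ≤ (Fintype.card Y : ℝ)⁻¹ ^ 2 *
            ∑ a : Y, ∑ b : Y, cube w fun y => F (Fin.cons a y) * (starRingEnd ℂ) (F (Fin.cons b y))
          refine mul_le_mul_of_nonneg_left ?_ (by positivity)
          exact sum_le_sum fun a _ => sum_le_sum fun b _ => h4 a b

end Pool.Agent.Helper70.PH
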